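import Mathlib

/-!
# Induced-metric-based embeddings of diversities into `ℓ₁` have linear distortion

Two disjoint sets `A`, `B` of `m` points in a uniform metric space of `n ≥ 2 m` points: there are a
diversity with `δ(A) = m - 1`, `δ(B) = 1` and one with `δ(A) = 1`, `δ(B) = m - 1`, both with the
uniform induced metric. A map `φ` that depends only on the induced metric is the same for both, and
the product of its two distortions is at least `(m - 1)²`.
-/

set_option autoImplicit false

namespace Pool.Agent.Results.MP_00e3a8_gt.LinearLowerBound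

/-- `δ` is a diversity on `X`. -/
structure IsDiversity {X : Type} [DecidableEq X] (δ : Finset X → ℝ) : Prop where
  nonneg : ∀ A, 0 ≤ δ A
  eq_zero_iff : ∀ A, δ A = 0 ↔ A.card ≤ 1
  tri : ∀ A B C : Finset X, C.Nonempty → δ (A ∪ B) ≤ δ (A ∪ C) + δ (B ∪ C)

/-- `d` is a metric on `X`. -/
structure IsMetric {X : Type} (d : X → X → ℝ) : Prop where
  eq_zero_iff : ∀ x y, d x y = 0 ↔ x = y
  symm : ∀ x y, d x y = d y x
  tri : ∀ x y z, d x z ≤ d x y + d y z

/-- The induced metric `d_δ(x, y) = δ({x, y})` of a diversity. -/
def induced {X : Type} [DecidableEq X] (δ : Finset X → ℝ) (x y : X) : ℝ := δ {x, y}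

theorem IsDiversity.isMetric {X : Type} [DecidableEq X] {δ : Finset X → ℝ} (h : IsDiversity δ) :
    IsMetric (induced δ) where
  eq_zero_iff x y := by
    unfold induced
    rw [h.eq_zero_iff]
    constructor
    · intro hc
      by_contra hne
      rw [Finset.card_pair hne] at hc
      omega
    · rintro rfl
      simp
  symm x y := by
    unfold induced
    rw [Finset.pair_comm]
  tri x y z := by
    unfold induced
    have h1 := h.tri {x} {z} {y} (Finset.singleton_nonempty y)
    have e1 : ({x} : Finset X) ∪ {z} = {x, z} := rfl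
    have e2 : ({x} : Finset X) ∪ {y} = {x, y} := rfl
    have e3 : ({z} : Finset X) ∪ {y} = {z, y} := rfl
    rw [e1, e2, e3] at h1
    rw [Finset.pair_comm y z]
    exact h1

/-- The `ℓ₁` diversity on `ℝᵏ`: the sum over the coordinates `i` of the largest value of
`|a i - b i|`, `a, b ∈ A` (the supremum of the empty set is `0`). -/
noncomputable def l1Diversity (k : ℕ) (A : Finset (Fin k → ℝ)) : ℝ :=
  ∑ i : Fin k, sSup {r : ℝ | ∃ a ∈ A, ∃ b ∈ A, r = |a i - b i|}

/-- The map `φ` from the diversity `(X, δ)` to `ℝᵏ` with the `ℓ₁` diversity has distortion `c`. -/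
def HasDistortion {X : Type} [DecidableEq X] (δ : Finset X → ℝ) {k : ℕ} (φ : X → (Fin k → ℝ))
    (c : ℝ) : Prop :=
  ∃ c₁ c₂ : ℝ, 0 < c₁ ∧ 0 < c₂ ∧ c = c₁ * c₂ ∧
    ∀ A : Finset X, 1 / c₁ * δ A ≤ l1Diversity k (A.image φ) ∧
      l1Diversity k (A.image φ) ≤ c₂ * δ A

/-- An induced-metric-based embedding rule: it assigns to every finite metric space `(X, d)` a
dimension `k` and a map `φ_d : X → ℝᵏ`. -/
structure Rule where
  dim : ∀ (X : Type) [Finite X] (d : X → X → ℝ), IsMetric d → ℕ
  map : ∀ (X : Type) [Finite X] (d : X → X → ℝ) (h : IsMetric d), X → (Fin (dim X d h) → ℝ)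

/-- The map `φ_{d_δ}` which the rule `R` yields for the diversity `(X, δ)`. -/
def Rule.apply (R : Rule) {X : Type} [Finite X] [DecidableEq X] {δ : Finset X → ℝ}
    (h : IsDiversity δ) : X → (Fin (R.dim X (induced δ) h.isMetric) → ℝ) :=
  R.map X (induced δ) h.isMetric

/-- The diversity which sees only the images of the points under `q`, but gives the value `1` to
sets of at least two points which are mapped to one point. -/
noncomputable def dq {X Y : Type} [DecidableEq Y] (q : X → Y) (S : Finset X) : ℝ :=
  if S.card ≤ 1 then 0 else max 1 (((S.image q).card : ℝ) - 1)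

theorem dq_ge {X Y : Type} [DecidableEq Y] (q : X → Y) (S : Finset X) :
    ((S.image q).card : ℝ) - 1 ≤ dq q S := by
  unfold dq
  split_ifs with h
  · have : (S.image q).card ≤ 1 := Finset.card_image_le.trans h
    have : ((S.image q).card : ℝ) ≤ 1 := by exact_mod_cast this
    linarith
  · exact le_max_right _ _

theorem dq_diversity {X Y : Type} [DecidableEq X] [DecidableEq Y] (q : X → Y) :
    IsDiversity (dq q) where
  nonneg A := by
    unfold dq
    split_ifs
    · exact le_rfl
    · exact le_trans zero_le_one (le_max_left _ _)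
  eq_zero_iff A := by
    unfold dq
    split_ifs with h
    · simp [h]
    · simp only [h, iff_false]
      have : (1 : ℝ) ≤ max 1 (((A.image q).card : ℝ) - 1) := le_max_left _ _
      linarith
  tri A B C hC := by
    have hnn : ∀ S, 0 ≤ dq q S := by
      intro S
      unfold dq
      split_ifs
      · exact le_rfl
      · exact le_trans zero_le_one (le_max_left _ _)
    by_cases h : (A ∪ B).card ≤ 1
    · have : dq q (A ∪ B) = 0 := by unfold dq; rw [if_pos h]
      rw [this]
      exact add_nonneg (hnn _) (hnn _)
    · have h0 : dq q (A ∪ B) = max 1 ((((A ∪ B).image q).card : ℝ) - 1) := by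
        unfold dq; rw [if_neg h]
      rw [h0]
      apply max_le
      · -- one of the two sets has at least two points
        have h1 : ¬ ((A ∪ C).card ≤ 1 ∧ (B ∪ C).card ≤ 1) := by
          rintro ⟨ha, hb⟩
          apply h
          obtain ⟨c, hc⟩ := hC
          have hA : A ⊆ {c} := by
            intro a haA
            have := Finset.card_le_one.1 ha a (Finset.mem_union_left _ haA) c
              (Finset.mem_union_right _ hc)
            simp [this]
          have hB : B ⊆ {c} := by
            intro b hbB
            have := Finset.card_le_one.1 hb b (Finset.mem_union_left _ hbB) c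
              (Finset.mem_union_right _ hc)
            simp [this]
          calc (A ∪ B).card ≤ ({c} : Finset X).card :=
                Finset.card_le_card (Finset.union_subset hA hB)
            _ = 1 := Finset.card_singleton c
        have hge : ∀ S : Finset X, ¬ S.card ≤ 1 → 1 ≤ dq q S := by
          intro S hS
          unfold dq
          rw [if_neg hS]
          exact le_max_left _ _
        by_cases ha : (A ∪ C).card ≤ 1
        · have hb : ¬ (B ∪ C).card ≤ 1 := fun hb => h1 ⟨ha, hb⟩
          have := hge _ hb
          have := hnn (A ∪ C)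
          linarith
        · have := hge _ ha
          have := hnn (B ∪ C)
          linarith
      · have h1 := dq_ge q (A ∪ C)
        have h2 := dq_ge q (B ∪ C)
        have h3 : ((A ∪ B).image q).card + (C.image q).card ≤
            ((A ∪ C).image q).card + ((B ∪ C).image q).card := by
          rw [Finset.image_union, Finset.image_union, Finset.image_union]
          rw [← Finset.card_union_add_card_inter (A.image q ∪ C.image q)]
          apply add_le_add
          · apply Finset.card_le_card
            intro y hy
            simp only [Finset.mem_union] at hy ⊢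
            tauto
          · apply Finset.card_le_card
            intro y hy
            simp only [Finset.mem_inter, Finset.mem_union]
            tauto
        have h4 : 1 ≤ (C.image q).card := Finset.card_pos.2 (hC.image q)
        have h5 : (((A ∪ B).image q).card : ℝ) + 1 ≤
            ((A ∪ C).image q).card + ((B ∪ C).image q).card := by
          have : ((A ∪ B).image q).card + 1 ≤
            ((A ∪ C).image q).card + ((B ∪ C).image q).card := by omega
          exact_mod_cast this
        linarith

/-- The uniform metric. -/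
noncomputable def unif (X : Type) [DecidableEq X] (x y : X) : ℝ := if x = y then 0 else 1

theorem dq_induced {X Y : Type} [DecidableEq X] [DecidableEq Y] (q : X → Y) :
    induced (dq q) = unif X := by
  funext x y
  unfold induced dq unif
  by_cases h : x = y
  · subst h
    simp
  · rw [if_neg h, Finset.card_pair h, if_neg (by norm_num)]
    apply max_eq_left
    have : (({x, y} : Finset X).image q).card ≤ 2 :=
      Finset.card_image_le.trans (Finset.card_le_two)
    have : ((({x, y} : Finset X).image q).card : ℝ) ≤ 2 := by exact_mod_cast this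
    linarith

/-- The two competing diversities cannot both be embedded well by one map. -/
theorem compete {X : Type} [DecidableEq X] {k : ℕ} (φ : X → (Fin k → ℝ)) (A B : Finset X) (m : ℕ)
    (hm : 2 ≤ m) (δ δ' : Finset X → ℝ) (h1 : δ A = m - 1) (h2 : δ B = 1) (h3 : δ' A = 1)
    (h4 : δ' B = m - 1) :
    (∀ c, HasDistortion δ φ c → (m : ℝ) - 1 ≤ c) ∨
      (∀ c, HasDistortion δ' φ c → (m : ℝ) - 1 ≤ c) := by
  by_contra hcon
  push Not at hcon
  obtain ⟨⟨c, ⟨c1, c2, hc1, hc2, rfl, hc⟩, hlt⟩, ⟨c', ⟨e1, e2, he1, he2, rfl, he⟩, hlt'⟩⟩ := hcon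
  have hm' : (2 : ℝ) ≤ m := by exact_mod_cast hm
  have a1 := (hc A).1
  have a2 := (hc B).2
  have b1 := (he B).1
  have b2 := (he A).2
  rw [h1] at a1
  rw [h2, mul_one] at a2
  rw [h4] at b1
  rw [h3, mul_one] at b2
  set s := l1Diversity k (A.image φ)
  set t := l1Diversity k (B.image φ)
  have a3 : (m : ℝ) - 1 ≤ c1 * s := by
    have := mul_le_mul_of_nonneg_left a1 hc1.le
    rwa [← mul_assoc, mul_one_div_cancel hc1.ne', one_mul] at this
  have b3 : (m : ℝ) - 1 ≤ e1 * t := by
    have := mul_le_mul_of_nonneg_left b1 he1.le
    rwa [← mul_assoc, mul_one_div_cancel he1.ne', one_mul] at this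
  have hs : 0 < s := by
    by_contra h
    push Not at h
    nlinarith
  have ht : 0 < t := by
    by_contra h
    push Not at h
    nlinarith
  have f1 : ((m : ℝ) - 1) * t < ((m : ℝ) - 1) * s := by
    calc ((m : ℝ) - 1) * t ≤ (c1 * s) * c2 := mul_le_mul a3 a2 ht.le (by positivity)
      _ = (c1 * c2) * s := by ring
      _ < ((m : ℝ) - 1) * s := mul_lt_mul_of_pos_right hlt hs
  have f2 : ((m : ℝ) - 1) * s < ((m : ℝ) - 1) * t := by
    calc ((m : ℝ) - 1) * s ≤ (e1 * t) * e2 := mul_le_mul b3 b2 hs.le (by positivity)
      _ = (e1 * e2) * t := by ring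
      _ < ((m : ℝ) - 1) * t := mul_lt_mul_of_pos_right hlt' ht
  exact lt_asymm f1 f2

/-- Collapse the complement of `A` to one point. -/
def coll {X : Type} [DecidableEq X] (A : Finset X) (x : X) : Option X := if x ∈ A then some x else none

theorem coll_self {X : Type} [DecidableEq X] (A : Finset X) (m : ℕ) (hm : 2 ≤ m)
    (hA : A.card = m) : dq (coll A) A = m - 1 := by
  unfold dq
  rw [if_neg (by omega)]
  have h1 : (A.image (coll A)).card = m := by
    rw [Finset.card_image_of_injOn, hA]
    intro x hx y hy hxy
    have hx' : x ∈ A := hx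
    have hy' : y ∈ A := hy
    simpa [coll, hx', hy'] using hxy
  rw [h1]
  apply max_eq_right
  have : (2 : ℝ) ≤ m := by exact_mod_cast hm
  linarith

theorem coll_disj {X : Type} [DecidableEq X] (A B : Finset X) (m : ℕ) (hm : 2 ≤ m)
    (hB : B.card = m) (hd : Disjoint A B) : dq (coll A) B = 1 := by
  unfold dq
  rw [if_neg (by omega)]
  have h1 : B.image (coll A) ⊆ {none} := by
    intro y hy
    rw [Finset.mem_image] at hy
    obtain ⟨x, hx, rfl⟩ := hy
    have : x ∉ A := fun h => Finset.disjoint_left.1 hd h hx
    simp [coll, this]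
  have h2 : (B.image (coll A)).card ≤ 1 := by
    simpa using Finset.card_le_card h1
  have h3 : ((B.image (coll A)).card : ℝ) ≤ 1 := by exact_mod_cast h2
  apply max_eq_left
  linarith

theorem transport (R : Rule) {X : Type} [Finite X] [DecidableEq X] {δ : Finset X → ℝ}
    (h : IsDiversity δ) (d : X → X → ℝ) (hd : IsMetric d) (he : induced δ = d) (c : ℝ)
    (hc : HasDistortion δ (R.apply h) c) : HasDistortion δ (R.map X d hd) c := by
  subst he
  exact hc

theorem lower (R : Rule) (n : ℕ) : ∃ (δ : Finset (Fin n) → ℝ) (h : IsDiversity δ),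
      ∀ c : ℝ, HasDistortion δ (R.apply h) c → ((n / 2 : ℕ) : ℝ) - 1 ≤ c := by
  set m := n / 2 with hmdef
  by_cases hm : 2 ≤ m
  · set A : Finset (Fin n) := Finset.univ.filter fun i => (i : ℕ) < m with hAdef
    set B : Finset (Fin n) := Finset.univ.filter fun i => m ≤ (i : ℕ) ∧ (i : ℕ) < 2 * m with hBdef
    have hA : A.card = m := by
      have : A = Finset.univ.image (fun j : Fin m => (⟨j, by omega⟩ : Fin n)) := by
        ext i
        simp only [hAdef, Finset.mem_filter, Finset.mem_univ, true_and, Finset.mem_image]
        constructor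
        · intro hi
          exact ⟨⟨i, hi⟩, rfl⟩
        · rintro ⟨j, rfl⟩
          exact j.2
      rw [this, Finset.card_image_of_injective, Finset.card_univ, Fintype.card_fin]
      intro a b hab
      simpa [Fin.ext_iff] using hab
    have hB : B.card = m := by
      have : B = Finset.univ.image (fun j : Fin m => (⟨m + j, by omega⟩ : Fin n)) := by
        ext i
        simp only [hBdef, Finset.mem_filter, Finset.mem_univ, true_and, Finset.mem_image]
        constructor
        · rintro ⟨hi, hi2⟩
          refine ⟨⟨i - m, by omega⟩, ?_⟩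
          ext
          simp only
          omega
        · rintro ⟨j, rfl⟩
          constructor
          · simp
          · have := j.2
            simp only
            omega
      rw [this, Finset.card_image_of_injective, Finset.card_univ, Fintype.card_fin]
      intro a b hab
      simpa [Fin.ext_iff] using hab
    have hd : Disjoint A B := by
      rw [Finset.disjoint_left]
      intro i hi hi'
      simp only [hAdef, hBdef, Finset.mem_filter, Finset.mem_univ, true_and] at hi hi'
      omega
    have hu : IsMetric (unif (Fin n)) := by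
      have := (dq_diversity (coll A)).isMetric
      rwa [dq_induced] at this
    rcases compete (R.map (Fin n) (unif (Fin n)) hu) A B m hm (dq (coll A)) (dq (coll B))
      (coll_self A m hm hA) (coll_disj A B m hm hB hd) (coll_disj B A m hm hA hd.symm)
      (coll_self B m hm hB) with h | h
    · exact ⟨dq (coll A), dq_diversity _, fun c hc =>
        h c (transport R _ _ hu (dq_induced _) c hc)⟩
    · exact ⟨dq (coll B), dq_diversity _, fun c hc =>
        h c (transport R _ _ hu (dq_induced _) c hc)⟩
  · refine ⟨dq (id : Fin n → Fin n), dq_diversity _, ?_⟩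
    rintro c ⟨c1, c2, h1, h2, rfl, -⟩
    have h3 : (m : ℝ) ≤ 1 := by exact_mod_cast (by omega : m ≤ 1)
    have : 0 < c1 * c2 := mul_pos h1 h2
    linarith

/-- **Induced-metric-based embeddings of diversities into `ℓ₁` have at least linear distortion.**
(1) For every induced-metric-based embedding rule and every `n` there is a diversity on `n` points
for which the map of the rule has no distortion less than `⌊n / 2⌋ - 1`. (2) In particular there are
no constant `C` and induced-metric-based rule such that for every `n ≥ 2` and every diversity on `n`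
points the map of the rule has distortion at most `C √n`. -/
theorem result :
    (∀ (R : Rule) (n : ℕ), ∃ (δ : Finset (Fin n) → ℝ) (h : IsDiversity δ),
      ∀ c : ℝ, HasDistortion δ (R.apply h) c → ((n / 2 : ℕ) : ℝ) - 1 ≤ c) ∧
    ¬ ∃ (C : ℝ) (R : Rule), ∀ n : ℕ, 2 ≤ n →
      ∀ (X : Type) [Fintype X] [DecidableEq X], Fintype.card X = n →
        ∀ (δ : Finset X → ℝ) (h : IsDiversity δ),
          ∃ c : ℝ, c ≤ C * √n ∧ HasDistortion δ (R.apply h) c := by
  refine ⟨lower, ?_⟩
  rintro ⟨C, R, H⟩
  obtain ⟨K, hK⟩ := exists_nat_gt (max C 1)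
  have hKC : C < K := (le_max_left _ _).trans_lt hK
  have hK1 : (1 : ℝ) < K := (le_max_right _ _).trans_lt hK
  obtain ⟨δ, h, hδ⟩ := lower R (16 * K ^ 2)
  have hK0 : 1 < K := by exact_mod_cast hK1
  have h2 : 2 ≤ 16 * K ^ 2 := by nlinarith
  obtain ⟨c, hc1, hc2⟩ := H (16 * K ^ 2) h2 (Fin (16 * K ^ 2)) (Fintype.card_fin _) δ h
  have h3 := hδ c hc2
  have h4 : (16 * K ^ 2) / 2 = 8 * K ^ 2 := by omega
  rw [h4] at h3
  have h5 : √((16 * K ^ 2 : ℕ) : ℝ) = 4 * K := by
    rw [show ((16 * K ^ 2 : ℕ) : ℝ) = (4 * K) ^ 2 by push_cast; ring]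
    exact Real.sqrt_sq (by positivity)
  rw [h5] at hc1
  push_cast at h3
  nlinarith

end Pool.Agent.Results.MP_00e3a8_gt.LinearLowerBound
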